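import Mathlib
import Pool.Agent.Helper84.NCDefs
import Pool.Agent.Helper84.NCIndec
import Pool.Agent.Helper84.NCLevel

set_option autoImplicit false

namespace Pool.Agent.Results.MP_240e45_ag.EllipticCounterexample

open Pool.Agent.Helper84 Pool.Agent.Helper84.NCExpr

variable {g : ℕ}

/-- The expression represents an element of the free skew field: it is defined at some tuple of
complex matrices of some positive size. -/
def Nondegenerate (r : NCExpr ℂ (Fin g)) : Prop :=
  ∃ n : ℕ, 0 < n ∧ ∃ X : Fin g → Matrix (Fin n) (Fin n) ℂ, r.DefinedAt X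

/-- The Zariski closed set of `g`-tuples of `n × n` matrices cut out by a set `Z` of
polynomials in the `g n²` matrix entries. -/
def zeroSet {n : ℕ} (Z : Set (MvPolynomial (Fin g × Fin n × Fin n) ℂ)) :
    Set (Fin g → Matrix (Fin n) (Fin n) ℂ) :=
  {X | ∀ p ∈ Z, MvPolynomial.eval (fun t => X t.1 t.2.1 t.2.2) p = 0}

/-- Irreducibility of a set of matrix tuples for the Zariski topology: it is nonempty, and whenever
it is covered by two closed sets it is contained in one of them. -/
def ZariskiIrreducible {n : ℕ} (L : Set (Fin g → Matrix (Fin n) (Fin n) ℂ)) : Prop :=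
  L.Nonempty ∧ ∀ Z₁ Z₂ : Set (MvPolynomial (Fin g × Fin n × Fin n) ℂ),
    L ⊆ zeroSet Z₁ ∪ zeroSet Z₂ → L ⊆ zeroSet Z₁ ∨ L ⊆ zeroSet Z₂

/-- The level set `{X ∈ dom_n(r) : det (r(X) - c) = 0}` of the noncommutative rational function
represented by `r`; the domain is the set of tuples at which some representing expression
`r'` is defined. -/
def levelSet (r : NCExpr ℂ (Fin g)) (n : ℕ) (c : ℂ) :
    Set (Fin g → Matrix (Fin n) (Fin n) ℂ) :=
  {X | ∃ r' : NCExpr ℂ (Fin g), SameFunction ℂ r r' ∧ r'.DefinedAt X ∧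
    (r'.eval X - c • (1 : Matrix (Fin n) (Fin n) ℂ)).det = 0}

/-- Generically irreducible level sets. -/
def GenericallyIrreducible (r : NCExpr ℂ (Fin g)) : Prop :=
  ∃ N : ℕ, 0 < N ∧ ∃ E : Set ℂ, E.Finite ∧
    ∀ n : ℕ, N ≤ n → ∀ c : ℂ, c ∉ E → ZariskiIrreducible (levelSet r n c)

/-- Moebius functions. -/
def IsMobius (f : RatFunc ℂ) : Prop :=
  ∃ a b c d : ℂ, a * d - b * c ≠ 0 ∧
    f = (RatFunc.C a * RatFunc.X + RatFunc.C b) / (RatFunc.C c * RatFunc.X + RatFunc.C d)

/-- `r = f(s)` for `f = f.num / f.denom` (in lowest terms): the element `f.denom (s)` of the free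
skew field is invertible (equivalently, invertible at some tuple of matrices), and
`r · f.denom (s) = f.num (s)` at every tuple of matrices at which `r` and `s` are defined. -/
def IsComposition (r : NCExpr ℂ (Fin g)) (f : RatFunc ℂ) (s : NCExpr ℂ (Fin g)) : Prop :=
  (∃ n : ℕ, 0 < n ∧ ∃ X : Fin g → Matrix (Fin n) (Fin n) ℂ, s.DefinedAt X ∧
    IsUnit (Polynomial.aeval (s.eval X) f.denom)) ∧
  ∀ (n : ℕ) (X : Fin g → Matrix (Fin n) (Fin n) ℂ), r.DefinedAt X → s.DefinedAt X →
    r.eval X * Polynomial.aeval (s.eval X) f.denom = Polynomial.aeval (s.eval X) f.num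

/-- `r` decomposes: `r = f(s)` for some non-Moebius `f` and some noncommutative rational
function `s`. -/
def Decomposes (r : NCExpr ℂ (Fin g)) : Prop :=
  ∃ (f : RatFunc ℂ) (s : NCExpr ℂ (Fin g)), ¬ IsMobius f ∧ IsComposition r f s

theorem isMobius_of_degree (f : RatFunc ℂ)
    (h : max f.num.natDegree f.denom.natDegree = 1) : IsMobius f := by
  have h1 : f.num.natDegree ≤ 1 := (le_max_left _ _).trans h.le
  have h2 : f.denom.natDegree ≤ 1 := (le_max_right _ _).trans h.le
  obtain ⟨a, b, hab⟩ := Polynomial.exists_eq_X_add_C_of_natDegree_le_one h1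
  obtain ⟨c, d, hcd⟩ := Polynomial.exists_eq_X_add_C_of_natDegree_le_one h2
  refine ⟨a, b, c, d, ?_, ?_⟩
  · intro h0
    obtain ⟨u, v, huv⟩ := RatFunc.isCoprime_num_denom f
    by_cases hc : c = 0
    · have hd : d ≠ 0 := by
        rintro rfl
        apply f.denom_ne_zero
        rw [hcd, hc]; simp
      have ha : a = 0 := by
        rw [hc] at h0
        have : a * d = 0 := by linear_combination h0
        exact (mul_eq_zero.mp this).resolve_right hd
      rw [hab, hcd, ha, hc] at h
      simp at h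
    · have hev : Polynomial.eval (-d / c) f.denom = 0 := by
        rw [hcd]
        simp only [Polynomial.eval_add, Polynomial.eval_mul, Polynomial.eval_C,
          Polynomial.eval_X]
        field_simp
        ring
      have hev2 : Polynomial.eval (-d / c) f.num = 0 := by
        rw [hab]
        simp only [Polynomial.eval_add, Polynomial.eval_mul, Polynomial.eval_C,
          Polynomial.eval_X]
        field_simp
        linear_combination -h0
      have := congrArg (Polynomial.eval (-d / c)) huv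
      rw [Polynomial.eval_add, Polynomial.eval_mul, Polynomial.eval_mul, hev, hev2] at this
      simp at this
  · conv_lhs => rw [← RatFunc.num_div_denom f, hab, hcd]
    simp only [map_add, map_mul, RatFunc.algebraMap_X, RatFunc.algebraMap_C]

/-- In `g ≥ 2` variables there is a noncommutative rational function that does not decompose and
whose level sets are not generically irreducible. In fact its level sets in
`n × n` matrices are nonempty and reducible for every `n ≥ 5` and all but finitely many values. -/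
theorem result (g : ℕ) (hg : 2 ≤ g) :
    ∃ r : NCExpr ℂ (Fin g), Nondegenerate r ∧ ¬ Decomposes r ∧ ¬ GenericallyIrreducible r ∧
      ∀ n : ℕ, 5 ≤ n → ∃ E : Set ℂ, E.Finite ∧
        ∀ c : ℂ, c ∉ E → (levelSet r n c).Nonempty ∧ ¬ ZariskiIrreducible (levelSet r n c) := by
  classical
  let e : Fin 2 → Fin g := Fin.castLE hg
  have he : Function.Injective e := Fin.castLE_injective hg
  have h2 : (2 : ℂ) ≠ 0 := by norm_num
  have h3 : (3 : ℂ) ≠ 0 := by norm_num
  have hlev : ∀ n : ℕ, 5 ≤ n → ∃ E : Set ℂ, E.Finite ∧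
      ∀ c : ℂ, c ∉ E → (levelSet ((lamE (1 : ℂ)).rename e) n c).Nonempty ∧
        ¬ ZariskiIrreducible (levelSet ((lamE (1 : ℂ)).rename e) n c) := by
    intro n hn
    obtain ⟨p, rfl⟩ : ∃ p, n = p + 5 := ⟨n - 5, by omega⟩
    obtain ⟨S, hS⟩ := level_reducible h2 (1 : ℂ) e he p
    refine ⟨S, S.finite_toSet, ?_⟩
    intro c hc
    obtain ⟨P₁, P₂, X₁, X₂, ⟨hd₁, hz₁, hP₁⟩, ⟨hd₂, hz₂, hP₂⟩, H⟩ :=
      hS c (by simpa using hc)
    have hX₁ : X₁ ∈ levelSet ((lamE (1 : ℂ)).rename e) (p + 5) c :=
      ⟨_, fun _ _ _ _ => rfl, hd₁, hz₁⟩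
    have hX₂ : X₂ ∈ levelSet ((lamE (1 : ℂ)).rename e) (p + 5) c :=
      ⟨_, fun _ _ _ _ => rfl, hd₂, hz₂⟩
    refine ⟨⟨X₁, hX₁⟩, ?_⟩
    rintro ⟨_, hirr⟩
    have hspec : ∀ (X : Fin g → Matrix (Fin (p + 5)) (Fin (p + 5)) ℂ)
        (P : MvPolynomial (Fin g × Fin (p + 5) × Fin (p + 5)) ℂ),
        MvPolynomial.eval (fun t => X t.1 t.2.1 t.2.2) P = spec (k := ℂ) X P := by
      intro X P
      rfl
    rcases hirr {P₁} {P₂} (by
      rintro X ⟨r', hr', hdr', hzr'⟩
      by_contra hcon
      rw [Set.mem_union, not_or] at hcon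
      have h1 : spec (k := ℂ) X P₁ ≠ 0 := by
        intro h
        apply hcon.1
        intro q hq
        rw [Set.mem_singleton_iff] at hq
        rw [hq, hspec]; exact h
      have h2 : spec (k := ℂ) X P₂ ≠ 0 := by
        intro h
        apply hcon.2
        intro q hq
        rw [Set.mem_singleton_iff] at hq
        rw [hq, hspec]; exact h
      obtain ⟨hd, hz⟩ := H X h1 h2
      rw [← hr' _ X hd hdr'] at hzr'
      exact hz hzr') with h | h
    · exact hP₁ (h hX₁ P₁ rfl)
    · exact hP₂ (h hX₂ P₂ rfl)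
  refine ⟨(lamE (1 : ℂ)).rename e, ?_, ?_, ?_, hlev⟩
  · obtain ⟨W, hW⟩ := good_all (K := ℂ) h2 (1 : ℂ) [] 0
    have hW' := lamE_of_rE (1 : ℂ) [] W hW
    refine ⟨2, by norm_num, Function.extend e W 0, ?_⟩
    rw [defined_rename]
    have : (fun i => Function.extend e W 0 (e i)) = W := by
      funext i
      exact he.extend_apply W 0 i
    rw [this]
    exact hW'
  · rintro ⟨f, s, hf, ⟨n, hn, X, hX, hu⟩, hrel⟩
    exact hf (isMobius_of_degree f
      (indecomposable h2 h3 one_ne_zero e he f s ⟨n, X, hn, hX, hu⟩ hrel))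
  · rintro ⟨N, _, E, hE, hirr⟩
    obtain ⟨E', hE', hred⟩ := hlev (max N 5) (le_max_right _ _)
    obtain ⟨c, hc⟩ := (hE.union hE').exists_notMem
    rw [Set.mem_union, not_or] at hc
    exact (hred c hc.2).2 (hirr _ (le_max_left _ _) c hc.1)

end Pool.Agent.Results.MP_240e45_ag.EllipticCounterexample
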